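import Pool.Agent.W200.MR.Stm

/-!
# S_MU: partial sums of `μ(d)/d` over rough integers are bounded by one (helper29)
-/

set_option autoImplicit false

open Finset

namespace Pool.Agent.W29.MR

open Pool.Agent.W200.MR

theorem split (T : ℕ) (n : ℕ) : n ≠ 0 → ∃ s r : ℕ, n = s * r ∧ Smooth T s ∧ Rough T r := by
  induction n using Nat.recOnMul with
  | zero => intro h; exact absurd rfl h
  | one =>
    intro _
    refine ⟨1, 1, rfl, ?_, ?_⟩
    · intro p hp h; exact absurd (Nat.dvd_one.1 h) hp.one_lt.ne'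
    · intro p hp h; exact absurd (Nat.dvd_one.1 h) hp.one_lt.ne'
  | prime p hp =>
    intro _
    by_cases h : p < T
    · refine ⟨p, 1, (mul_one p).symm, ?_, ?_⟩
      · intro q hq hqp
        rw [(Nat.prime_dvd_prime_iff_eq hq hp).1 hqp]
        exact h
      · intro q hq h1; exact absurd (Nat.dvd_one.1 h1) hq.one_lt.ne'
    · refine ⟨1, p, (one_mul p).symm, ?_, ?_⟩
      · intro q hq h1; exact absurd (Nat.dvd_one.1 h1) hq.one_lt.ne'
      · intro q hq hqp
        rw [(Nat.prime_dvd_prime_iff_eq hq hp).1 hqp]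
        exact not_lt.1 h
  | mul a b iha ihb =>
    intro hab
    obtain ⟨s, r, h1, h2, h3⟩ := iha (left_ne_zero_of_mul hab)
    obtain ⟨s', r', h1', h2', h3'⟩ := ihb (right_ne_zero_of_mul hab)
    refine ⟨s * s', r * r', by rw [h1, h1']; ring, ?_, ?_⟩
    · intro p hp h
      rcases hp.dvd_mul.1 h with h | h
      · exact h2 p hp h
      · exact h2' p hp h
    · intro p hp h
      rcases hp.dvd_mul.1 h with h | h
      · exact h3 p hp h
      · exact h3' p hp h

open Classical in
theorem inner (T n : ℕ) (hn : n ≠ 0) :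
    ∑ d ∈ n.divisors.filter (fun d => Rough T d), (ArithmeticFunction.moebius d : ℤ) =
      if Smooth T n then 1 else 0 := by
  obtain ⟨s, r, hsr, hs, hr⟩ := split T n hn
  have hr0 : r ≠ 0 := by
    rintro rfl
    exact hn (by rw [hsr, mul_zero])
  have hset : n.divisors.filter (fun d => Rough T d) = r.divisors := by
    ext d
    rw [Finset.mem_filter, Nat.mem_divisors, Nat.mem_divisors]
    constructor
    · rintro ⟨⟨h1, -⟩, h2⟩
      refine ⟨?_, hr0⟩
      rw [hsr] at h1
      refine Nat.Coprime.dvd_of_dvd_mul_left ?_ h1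
      refine Nat.Coprime.symm (Nat.coprime_of_dvd fun p hp h3 h4 => ?_)
      have h5 := hs p hp h3
      have h6 := h2 p hp h4
      omega
    · rintro ⟨h1, -⟩
      refine ⟨⟨?_, hn⟩, ?_⟩
      · rw [hsr]; exact Dvd.dvd.mul_left h1 s
      · intro p hp h2
        exact hr p hp (h2.trans h1)
  rw [hset, ← ArithmeticFunction.coe_mul_zeta_apply, ArithmeticFunction.moebius_mul_coe_zeta,
    ArithmeticFunction.one_apply]
  refine if_congr ?_ rfl rfl
  constructor
  · rintro rfl
    rw [hsr, mul_one]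
    exact hs
  · intro h
    by_contra h1
    obtain ⟨p, hp, hpr⟩ := Nat.exists_prime_and_dvd h1
    have h2 := hr p hp hpr
    have h3 := h p hp (by rw [hsr]; exact Dvd.dvd.mul_left hpr s)
    omega

open Classical in
theorem swap_sum (T N : ℕ) :
    ∑ d ∈ (Icc 1 N).filter (fun d => Rough T d), (ArithmeticFunction.moebius d : ℤ) * ((N / d : ℕ) : ℤ) =
      (((Icc 1 N).filter (fun n => Smooth T n)).card : ℤ) := by
  have h1 : ∀ n ∈ Icc 1 N, (if Smooth T n then (1 : ℤ) else 0) =
      ∑ d ∈ (Icc 1 N).filter (fun d => Rough T d), if d ∣ n then (ArithmeticFunction.moebius d : ℤ) else 0 := by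
    intro n hn
    rw [Finset.mem_Icc] at hn
    rw [← inner T n (by omega), ← Finset.sum_filter]
    refine Finset.sum_congr ?_ fun _ _ => rfl
    ext d
    simp only [Finset.mem_filter, Nat.mem_divisors, Finset.mem_Icc]
    constructor
    · rintro ⟨⟨h2, h3⟩, h4⟩
      have h5 := Nat.le_of_dvd (by omega) h2
      have h6 := Nat.pos_of_dvd_of_pos h2 (by omega)
      exact ⟨⟨⟨by omega, by omega⟩, h4⟩, h2⟩
    · rintro ⟨⟨h2, h4⟩, h3⟩
      exact ⟨⟨h3, by omega⟩, h4⟩
  have hc : (((Icc 1 N).filter (fun n => Smooth T n)).card : ℤ) =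
      ∑ n ∈ Icc 1 N, (if Smooth T n then (1 : ℤ) else 0) := by
    rw [Finset.card_filter, Nat.cast_sum]
    refine Finset.sum_congr rfl fun n _ => ?_
    split_ifs <;> simp
  rw [hc, Finset.sum_congr rfl h1, Finset.sum_comm]
  refine Finset.sum_congr rfl fun d _ => ?_
  rw [← Finset.sum_filter, Finset.sum_const, nsmul_eq_mul, mul_comm]
  have h2 : ((Icc 1 N).filter (fun n => d ∣ n)).card = N / d := Nat.Ioc_filter_dvd_card_eq_div N d
  rw [h2]

open Classical in
theorem t_MU : S_MU := by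
  intro T N hN
  set A := (Icc 1 N).filter (fun d => Rough T d) with hA
  set B := (Icc 1 N).filter (fun n => Smooth T n) with hB
  have hN0 : (0 : ℝ) < N := by exact_mod_cast hN
  have hs := swap_sum T N
  rw [← hA, ← hB] at hs
  have h1A : 1 ∈ A := by
    rw [hA, Finset.mem_filter, Finset.mem_Icc]
    refine ⟨⟨le_rfl, hN⟩, ?_⟩
    intro p hp h; exact absurd (Nat.dvd_one.1 h) hp.one_lt.ne'
  -- the identity
  have hid : (N : ℝ) * ∑ d ∈ A, ((ArithmeticFunction.moebius d : ℤ) : ℝ) / (d : ℝ) =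
      (B.card : ℝ) + ∑ d ∈ A.erase 1, ((ArithmeticFunction.moebius d : ℤ) : ℝ) *
        ((N : ℝ) / d - ((N / d : ℕ) : ℝ)) := by
    have h2 : (B.card : ℝ) = ∑ d ∈ A, ((ArithmeticFunction.moebius d : ℤ) : ℝ) * ((N / d : ℕ) : ℝ) := by
      have h3 : ((∑ d ∈ A, (ArithmeticFunction.moebius d : ℤ) * ((N / d : ℕ) : ℤ) : ℤ) : ℝ) =
          (((B.card : ℕ) : ℤ) : ℝ) := congrArg (fun z : ℤ => (z : ℝ)) hs
      rw [Int.cast_natCast, Int.cast_sum] at h3
      rw [← h3]
      refine Finset.sum_congr rfl fun d _ => ?_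
      rw [Int.cast_mul, Int.cast_natCast]
    have h4 : ∑ d ∈ A.erase 1, ((ArithmeticFunction.moebius d : ℤ) : ℝ) *
        ((N : ℝ) / d - ((N / d : ℕ) : ℝ)) = ∑ d ∈ A, ((ArithmeticFunction.moebius d : ℤ) : ℝ) *
        ((N : ℝ) / d - ((N / d : ℕ) : ℝ)) := by
      rw [← Finset.add_sum_erase A _ h1A]
      simp
    rw [h4, h2, ← Finset.sum_add_distrib, Finset.mul_sum]
    refine Finset.sum_congr rfl fun d _ => ?_
    ring
  have hfr : |∑ d ∈ A.erase 1, ((ArithmeticFunction.moebius d : ℤ) : ℝ) *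
        ((N : ℝ) / d - ((N / d : ℕ) : ℝ))| ≤ ((A.erase 1).card : ℝ) := by
    refine (Finset.abs_sum_le_sum_abs _ _).trans ?_
    rw [Finset.card_eq_sum_ones]
    push_cast
    refine Finset.sum_le_sum fun d hd => ?_
    rw [abs_mul]
    have hd1 : 1 ≤ d := by
      have h5 := Finset.mem_of_mem_erase hd
      rw [hA, Finset.mem_filter, Finset.mem_Icc] at h5
      exact h5.1.1
    have hd0 : (0 : ℝ) < d := by exact_mod_cast hd1
    have h6 : |((ArithmeticFunction.moebius d : ℤ) : ℝ)| ≤ 1 := by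
      exact_mod_cast ArithmeticFunction.abs_moebius_le_one
    have h7 : |(N : ℝ) / d - ((N / d : ℕ) : ℝ)| ≤ 1 := by
      have h8 : ((N / d : ℕ) : ℝ) ≤ (N : ℝ) / d := Nat.cast_div_le
      have h9 : (N : ℝ) / d < ((N / d : ℕ) : ℝ) + 1 := by
        rw [div_lt_iff₀ hd0]
        have h10 : N < (N / d + 1) * d := by
          have := Nat.lt_mul_div_succ N hd1
          rw [mul_comm]
          exact this
        exact_mod_cast h10
      rw [abs_le]
      constructor <;> linarith
    calc _ ≤ (1 : ℝ) * 1 := mul_le_mul h6 h7 (abs_nonneg _) zero_le_one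
      _ = 1 := one_mul 1
  have hdisj : Disjoint B (A.erase 1) := by
    rw [Finset.disjoint_left]
    intro n hnB hnA
    rw [hB, Finset.mem_filter] at hnB
    rw [Finset.mem_erase, hA, Finset.mem_filter] at hnA
    obtain ⟨p, hp, hpn⟩ := Nat.exists_prime_and_dvd hnA.1
    have h1 := hnB.2 p hp hpn
    have h2 := hnA.2.2 p hp hpn
    omega
  have hcard : B.card + (A.erase 1).card ≤ N := by
    rw [← Finset.card_union_of_disjoint hdisj]
    have h1 : B ∪ A.erase 1 ⊆ Icc 1 N := by
      intro x hx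
      rcases Finset.mem_union.1 hx with h | h
      · exact (Finset.mem_filter.1 h).1
      · exact (Finset.mem_filter.1 (Finset.mem_of_mem_erase h)).1
    calc _ ≤ (Icc 1 N).card := Finset.card_le_card h1
      _ = N := by rw [Nat.card_Icc]; omega
  have hfin : |(N : ℝ) * ∑ d ∈ A, ((ArithmeticFunction.moebius d : ℤ) : ℝ) / (d : ℝ)| ≤ N := by
    rw [hid]
    refine (abs_add_le _ _).trans ?_
    rw [Nat.abs_cast]
    have h1 : (B.card : ℝ) + ((A.erase 1).card : ℝ) ≤ N := by exact_mod_cast hcard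
    linarith
  rw [abs_mul, Nat.abs_cast] at hfin
  have h1 : (N : ℝ) * |∑ d ∈ A, ((ArithmeticFunction.moebius d : ℤ) : ℝ) / (d : ℝ)| ≤ N * 1 := by
    rw [mul_one]; exact hfin
  exact le_of_mul_le_mul_left h1 hN0

end Pool.Agent.W29.MR
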